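import Pool.Agent.Helper56_AT3.GLP

/-!
# Squad AT5, row GL5, part 1: the sum over the conjugates, for vector-valued coefficients
-/

set_option autoImplicit false

open scoped BigOperators

noncomputable section

namespace Pool.Agent.PP.T5.H92

open Pool.Agent.PP.K9.H65g Pool.Agent.PP.T3.H56

/-- Parseval. -/
theorem pars {ζ : ℂ} {l : ℕ} (hl : 0 < l) (hζ : IsPrimitiveRoot ζ l) (n : ℕ → ℂ) :
    ∑ j ∈ Finset.range l, Complex.normSq (∑ i ∈ Finset.range l, n i * ζ ^ (i * j)) =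
      l * ∑ i ∈ Finset.range l, Complex.normSq (n i) := by
  have hcj := conj_root hl hζ
  have key : ∀ i ∈ Finset.range l, ∀ i' ∈ Finset.range l,
      ∑ j ∈ Finset.range l, ζ ^ (i * j) * (starRingEnd ℂ ζ) ^ (i' * j) =
        if i' = i then (l : ℂ) else 0 := by
    intro i hi i' hi'
    have e : ∀ j ∈ Finset.range l, ζ ^ (i * j) * (starRingEnd ℂ ζ) ^ (i' * j) =
        (ζ ^ i * (starRingEnd ℂ ζ) ^ i') ^ j := by
      intro j _
      rw [mul_pow, ← pow_mul, ← pow_mul]
    rw [Finset.sum_congr rfl e]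
    by_cases h : i' = i
    · rw [if_pos h, h, ← mul_pow, hcj, one_pow]
      simp
    · rw [if_neg h]
      apply geom_zero
      · intro h1
        apply h
        have h2 : ζ ^ i = ζ ^ i' := by
          calc ζ ^ i = ζ ^ i * (starRingEnd ℂ ζ) ^ i' * ζ ^ i' := by
                rw [mul_assoc, ← mul_pow, mul_comm (starRingEnd ℂ ζ) ζ, hcj, one_pow, mul_one]
            _ = ζ ^ i' := by rw [h1, one_mul]
        exact (hζ.pow_inj (Finset.mem_range.1 hi) (Finset.mem_range.1 hi') h2).symm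
      · have h3 : (starRingEnd ℂ ζ) ^ l = 1 := by
          rw [← map_pow, hζ.pow_eq_one, map_one]
        rw [mul_pow, ← pow_mul, ← pow_mul, mul_comm i, mul_comm i', pow_mul, pow_mul,
          hζ.pow_eq_one, h3, one_pow, one_pow, one_mul]
  have hC : ((∑ j ∈ Finset.range l, Complex.normSq (∑ i ∈ Finset.range l,
      n i * ζ ^ (i * j)) : ℝ) : ℂ) =
      ((l * ∑ i ∈ Finset.range l, Complex.normSq (n i) : ℝ) : ℂ) := by
    rw [Complex.ofReal_sum]
    have e1 : ∀ j ∈ Finset.range l, ((Complex.normSq (∑ i ∈ Finset.range l,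
        n i * ζ ^ (i * j)) : ℝ) : ℂ) = ∑ i ∈ Finset.range l, ∑ i' ∈ Finset.range l,
          n i * starRingEnd ℂ (n i') * (ζ ^ (i * j) * (starRingEnd ℂ ζ) ^ (i' * j)) := by
      intro j _
      rw [← Complex.mul_conj, map_sum, Finset.sum_mul_sum]
      refine Finset.sum_congr rfl fun i _ => Finset.sum_congr rfl fun i' _ => ?_
      rw [map_mul, map_pow]
      ring
    rw [Finset.sum_congr rfl e1, Finset.sum_comm]
    have e2 : ∀ i ∈ Finset.range l, ∑ j ∈ Finset.range l, ∑ i' ∈ Finset.range l,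
        n i * starRingEnd ℂ (n i') * (ζ ^ (i * j) * (starRingEnd ℂ ζ) ^ (i' * j)) =
        (l : ℂ) * ((Complex.normSq (n i) : ℝ) : ℂ) := by
      intro i hi
      rw [Finset.sum_comm]
      have e3 : ∀ i' ∈ Finset.range l, ∑ j ∈ Finset.range l,
          n i * starRingEnd ℂ (n i') * (ζ ^ (i * j) * (starRingEnd ℂ ζ) ^ (i' * j)) =
          if i' = i then (l : ℂ) * ((Complex.normSq (n i) : ℝ) : ℂ) else 0 := by
        intro i' hi'
        rw [← Finset.mul_sum, key i hi i' hi']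
        by_cases h : i' = i
        · rw [if_pos h, if_pos h, h, ← Complex.mul_conj]
          ring
        · rw [if_neg h, if_neg h, mul_zero]
      rw [Finset.sum_congr rfl e3, Finset.sum_ite_eq' (Finset.range l) i, if_pos hi]
    rw [Finset.sum_congr rfl e2, ← Finset.mul_sum]
    push_cast
    ring
  exact_mod_cast hC

/-- the values at the exponents prime to `ℓ` do not change if a function of the class is
subtracted -/
theorem val_eqC {l N : ℕ} (hN : 0 < N) {ζ : ℂ} (hζ : IsPrimitiveRoot ζ (N * l))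
    (m c : ℕ → ℂ) {j : ℕ} (hj : ¬ l ∣ j) :
    ∑ i ∈ Finset.range (N * l), m i * ζ ^ (i * j) =
      ∑ i ∈ Finset.range (N * l), (m i - c (i % N)) * ζ ^ (i * j) := by
  have h1 : ∑ i ∈ Finset.range (N * l), c (i % N) * ζ ^ (i * j) = 0 := by
    rw [sum_shift]
    apply Finset.sum_eq_zero
    intro r hr
    have h0 : ∑ t ∈ Finset.range l, (ζ ^ (N * j)) ^ t = 0 := by
      apply geom_zero
      · intro h
        rw [hζ.pow_eq_one_iff_dvd] at h
        exact hj (Nat.dvd_of_mul_dvd_mul_left hN h)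
      · rw [← pow_mul, show N * j * l = (N * l) * j by ring, pow_mul, hζ.pow_eq_one, one_pow]
    have h2 : ∀ t ∈ Finset.range l, c ((r + N * t) % N) * ζ ^ ((r + N * t) * j) =
        c r * ζ ^ (r * j) * (ζ ^ (N * j)) ^ t := by
      intro t _
      rw [Nat.add_mul_mod_self_left, Nat.mod_eq_of_lt (Finset.mem_range.1 hr), mul_assoc]
      congr 1
      rw [← pow_mul, ← pow_add]
      congr 1
      ring
    rw [Finset.sum_congr rfl h2, ← Finset.mul_sum, h0, mul_zero]
  simp only [sub_mul]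
  rw [Finset.sum_sub_distrib, h1, sub_zero]

/-- the identity -/
theorem main_idC {l N : ℕ} (hN : 0 < N) (hl : 0 < l) {ζ : ℂ} (hζ : IsPrimitiveRoot ζ (N * l))
    (m : ℕ → ℂ) :
    ∑ j ∈ (Finset.range (N * l)).filter (fun j => ¬ l ∣ j),
      Complex.normSq (∑ i ∈ Finset.range (N * l), m i * ζ ^ (i * j)) =
      N * ∑ r ∈ Finset.range N, (l * ∑ t ∈ Finset.range l, Complex.normSq (m (r + N * t)) -
        Complex.normSq (∑ t ∈ Finset.range l, m (r + N * t))) := by
  have hp := pars (Nat.mul_pos hN hl) hζ m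
  have hη : IsPrimitiveRoot (ζ ^ l) N := hζ.pow (Nat.mul_pos hN hl) (by ring)
  obtain ⟨Mr, hMr⟩ : ∃ Mr : ℕ → ℂ, Mr = fun r => ∑ t ∈ Finset.range l, m (r + N * t) := ⟨_, rfl⟩
  have hp2 := pars hN hη Mr
  have hsplit := Finset.sum_filter_add_sum_filter_not (Finset.range (N * l)) (fun j => l ∣ j)
    (fun j => Complex.normSq (∑ i ∈ Finset.range (N * l), m i * ζ ^ (i * j)))
  have hdiv : ∑ j ∈ (Finset.range (N * l)).filter (fun j => l ∣ j),
      Complex.normSq (∑ i ∈ Finset.range (N * l), m i * ζ ^ (i * j)) =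
      ∑ k ∈ Finset.range N,
        Complex.normSq (∑ r ∈ Finset.range N, Mr r * (ζ ^ l) ^ (r * k)) := by
    symm
    apply Finset.sum_nbij (fun k => l * k)
    · intro k hk
      rw [Finset.mem_filter, Finset.mem_range]
      rw [Finset.mem_range] at hk
      refine ⟨?_, Dvd.intro _ rfl⟩
      rw [Nat.mul_comm N l]
      exact Nat.mul_lt_mul_of_pos_left hk hl
    · intro k _ k' _ h
      exact Nat.eq_of_mul_eq_mul_left hl h
    · intro j hj
      rw [Finset.mem_coe, Finset.mem_filter, Finset.mem_range] at hj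
      obtain ⟨hj1, k, rfl⟩ := hj
      refine ⟨k, ?_, rfl⟩
      rw [Finset.mem_coe, Finset.mem_range]
      rw [Nat.mul_comm N l] at hj1
      exact Nat.lt_of_mul_lt_mul_left hj1
    · intro k _
      congr 1
      rw [sum_shift]
      apply Finset.sum_congr rfl
      intro r _
      rw [hMr]
      change (∑ t ∈ Finset.range l, m (r + N * t)) * (ζ ^ l) ^ (r * k) = _
      rw [Finset.sum_mul]
      apply Finset.sum_congr rfl
      intro t _
      congr 1
      rw [← pow_mul]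
      have h3 : (r + N * t) * (l * k) = l * (r * k) + (N * l) * (t * k) := by ring
      rw [h3, pow_add, pow_mul ζ (N * l), hζ.pow_eq_one, one_pow, mul_one]
  have hsq : ∑ i ∈ Finset.range (N * l), Complex.normSq (m i) =
      ∑ r ∈ Finset.range N, ∑ t ∈ Finset.range l, Complex.normSq (m (r + N * t)) :=
    sum_shift _ N l
  rw [hdiv, hp2, hp, hsq] at hsplit
  rw [Finset.sum_sub_distrib, ← Finset.mul_sum, mul_sub]
  have e1 : ∑ r ∈ Finset.range N, Complex.normSq (Mr r) =
    ∑ r ∈ Finset.range N, Complex.normSq (∑ t ∈ Finset.range l, m (r + N * t)) := by rw [hMr]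
  rw [← e1]
  push_cast at hsplit
  linarith

theorem normSq_sum_le {ι : Type} (T : Finset ι) (n : ι → ℂ) :
    Complex.normSq (∑ t ∈ T, n t) ≤ (T.card : ℝ) * ∑ t ∈ T, Complex.normSq (n t) := by
  have h1 : Complex.normSq (∑ t ∈ T, n t) ≤ (∑ t ∈ T, ‖n t‖) ^ 2 := by
    rw [Complex.normSq_eq_norm_sq]
    exact pow_le_pow_left₀ (norm_nonneg _) (norm_sum_le _ _) 2
  refine h1.trans ?_
  have h2 : (∑ t ∈ T, ‖n t‖) ^ 2 ≤ (T.card : ℝ) * ∑ t ∈ T, ‖n t‖ ^ 2 := sq_sum_le_card_mul_sum_sq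
  simp only [Complex.normSq_eq_norm_sq]
  exact h2

/-- the estimate -/
theorem core {l N : ℕ} (hN : 0 < N) (hl : 2 ≤ l) {ζ : ℂ} (hζ : IsPrimitiveRoot ζ (N * l))
    {ι : Type} (R : Finset ι) (ψ : ℕ → ι → ℂ) (κ : ℝ)
    (hint : ∀ i i', (∀ s ∈ R, ψ i s - ψ i' s = 0) ∨
      1 ≤ κ * ∑ s ∈ R, Complex.normSq (ψ i s - ψ i' s)) (hκ : 0 ≤ κ)
    (hne : ∃ s ∈ R, ∑ i ∈ Finset.range (N * l), ψ i s * ζ ^ i ≠ 0) :
    ((N * (l - 1) : ℕ) : ℝ) ≤ κ * ∑ j ∈ (Finset.range (N * l)).filter (fun j => ¬ l ∣ j),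
      ∑ s ∈ R, Complex.normSq (∑ i ∈ Finset.range (N * l), ψ i s * ζ ^ (i * j)) := by
  classical
  have hl0 : 0 < l := by omega
  -- the differences
  obtain ⟨n, hn⟩ : ∃ n : ℕ → ℕ → ι → ℂ, n = fun r t s => ψ (r + N * t) s - ψ r s := ⟨_, rfl⟩
  have hni : ∀ r t s, n r t s = ψ (r + N * t) s - ψ r s := fun r t s => by rw [hn]
  obtain ⟨T, hT⟩ : ∃ T : ℕ → Finset ℕ, T = fun r => (Finset.range l).filter
    (fun t => ∃ s ∈ R, n r t s ≠ 0) := ⟨_, rfl⟩
  have hTm : ∀ r t, t ∈ T r ↔ t < l ∧ ∃ s ∈ R, n r t s ≠ 0 := by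
    intro r t
    rw [hT, Finset.mem_filter, Finset.mem_range]
  have hT0 : ∀ r, (T r).card ≤ l - 1 := by
    intro r
    have h1 : T r ⊆ (Finset.range l).erase 0 := by
      intro t ht
      rw [hTm] at ht
      rw [Finset.mem_erase, Finset.mem_range]
      refine ⟨?_, ht.1⟩
      rintro rfl
      obtain ⟨s, -, hs⟩ := ht.2
      apply hs
      rw [hni, mul_zero, add_zero, sub_self]
    have h2 := Finset.card_le_card h1
    rwa [Finset.card_erase_of_mem (Finset.mem_range.2 hl0), Finset.card_range] at h2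
  -- the identity for one `s`
  have hs : ∀ s, ∑ j ∈ (Finset.range (N * l)).filter (fun j => ¬ l ∣ j),
      Complex.normSq (∑ i ∈ Finset.range (N * l), ψ i s * ζ ^ (i * j)) =
      N * ∑ r ∈ Finset.range N, (l * ∑ t ∈ Finset.range l, Complex.normSq (n r t s) -
        Complex.normSq (∑ t ∈ Finset.range l, n r t s)) := by
    intro s
    have h1 : ∑ j ∈ (Finset.range (N * l)).filter (fun j => ¬ l ∣ j),
        Complex.normSq (∑ i ∈ Finset.range (N * l), ψ i s * ζ ^ (i * j)) =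
        ∑ j ∈ (Finset.range (N * l)).filter (fun j => ¬ l ∣ j),
        Complex.normSq (∑ i ∈ Finset.range (N * l), (ψ i s - ψ (i % N) s) * ζ ^ (i * j)) := by
      refine Finset.sum_congr rfl fun j hj => ?_
      rw [val_eqC hN hζ (fun i => ψ i s) (fun i => ψ i s) (Finset.mem_filter.1 hj).2]
    rw [h1, main_idC hN hl0 hζ (fun i => ψ i s - ψ (i % N) s)]
    congr 1
    refine Finset.sum_congr rfl fun r hr => ?_
    have h2 : ∀ t, ψ (r + N * t) s - ψ ((r + N * t) % N) s = n r t s := by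
      intro t
      rw [Nat.add_mul_mod_self_left, Nat.mod_eq_of_lt (Finset.mem_range.1 hr), hni]
    simp only [h2]
  -- one class
  have hcl : ∀ r, (((l - (T r).card : ℕ) : ℝ)) * (T r).card ≤
      κ * ∑ s ∈ R, (l * ∑ t ∈ Finset.range l, Complex.normSq (n r t s) -
        Complex.normSq (∑ t ∈ Finset.range l, n r t s)) := by
    intro r
    have hz : ∀ t ∈ Finset.range l, t ∉ T r → ∀ s ∈ R, n r t s = 0 := by
      intro t ht htT s hs
      by_contra h
      exact htT ((hTm r t).2 ⟨Finset.mem_range.1 ht, s, hs, h⟩)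
    have hsub : T r ⊆ Finset.range l := fun t ht => Finset.mem_range.2 ((hTm r t).1 ht).1
    have h1 : ∀ s ∈ R, ((l - (T r).card : ℕ) : ℝ) * ∑ t ∈ T r, Complex.normSq (n r t s) ≤
        l * ∑ t ∈ Finset.range l, Complex.normSq (n r t s) -
        Complex.normSq (∑ t ∈ Finset.range l, n r t s) := by
      intro s hs
      have h2 : ∑ t ∈ Finset.range l, n r t s = ∑ t ∈ T r, n r t s :=
        (Finset.sum_subset hsub (fun t ht htT => hz t ht htT s hs)).symm
      have h3 : ∑ t ∈ Finset.range l, Complex.normSq (n r t s) =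
          ∑ t ∈ T r, Complex.normSq (n r t s) :=
        (Finset.sum_subset hsub (fun t ht htT => by rw [hz t ht htT s hs, map_zero])).symm
      rw [h2, h3, Nat.cast_sub ((hT0 r).trans (Nat.sub_le _ _)), sub_mul]
      have h4 := normSq_sum_le (T r) (fun t => n r t s)
      linarith
    have h2 : κ * ∑ s ∈ R, ((l - (T r).card : ℕ) : ℝ) * ∑ t ∈ T r, Complex.normSq (n r t s) ≤
        κ * ∑ s ∈ R, (l * ∑ t ∈ Finset.range l, Complex.normSq (n r t s) -
        Complex.normSq (∑ t ∈ Finset.range l, n r t s)) :=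
      mul_le_mul_of_nonneg_left (Finset.sum_le_sum h1) hκ
    refine le_trans ?_ h2
    have h3 : κ * ∑ s ∈ R, ((l - (T r).card : ℕ) : ℝ) * ∑ t ∈ T r, Complex.normSq (n r t s) =
        ((l - (T r).card : ℕ) : ℝ) * ∑ t ∈ T r, (κ * ∑ s ∈ R, Complex.normSq (n r t s)) := by
      rw [← Finset.mul_sum, Finset.sum_comm, ← Finset.mul_sum]
      ring
    rw [h3]
    apply mul_le_mul_of_nonneg_left _ (Nat.cast_nonneg _)
    have h4 : ((T r).card : ℝ) = ∑ _t ∈ T r, (1 : ℝ) := by simp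
    rw [h4]
    refine Finset.sum_le_sum fun t ht => ?_
    obtain ⟨s, hs, hns⟩ := ((hTm r t).1 ht).2
    rcases hint (r + N * t) r with h | h
    · exfalso
      apply hns
      rw [hni]
      exact h s hs
    · simp only [hni]
      exact h
  -- a class with a nonzero difference
  obtain ⟨r₀, hr₀, hk₀⟩ : ∃ r ∈ Finset.range N, 0 < (T r).card := by
    by_contra hcon
    push Not at hcon
    obtain ⟨s, hs, hne⟩ := hne
    apply hne
    have hdiv : ¬ l ∣ 1 := by
      intro h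
      have := Nat.le_of_dvd one_pos h
      omega
    have h1 := val_eqC hN hζ (fun i => ψ i s) (fun i => ψ i s) hdiv
    simp only [mul_one] at h1
    rw [h1, sum_shift]
    apply Finset.sum_eq_zero
    intro r hr
    apply Finset.sum_eq_zero
    intro t ht
    rw [Nat.add_mul_mod_self_left, Nat.mod_eq_of_lt (Finset.mem_range.1 hr), ← hni]
    have h2 : n r t s = 0 := by
      by_contra h3
      have h4 : t ∈ T r := (hTm r t).2 ⟨Finset.mem_range.1 ht, s, hs, h3⟩
      have h5 := Finset.card_pos.2 ⟨t, h4⟩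
      have h6 := hcon r hr
      omega
    rw [h2, zero_mul]
  have hsum : κ * ∑ j ∈ (Finset.range (N * l)).filter (fun j => ¬ l ∣ j),
      ∑ s ∈ R, Complex.normSq (∑ i ∈ Finset.range (N * l), ψ i s * ζ ^ (i * j)) =
      N * ∑ r ∈ Finset.range N, (κ * ∑ s ∈ R, (l * ∑ t ∈ Finset.range l,
        Complex.normSq (n r t s) - Complex.normSq (∑ t ∈ Finset.range l, n r t s))) := by
    rw [Finset.sum_comm, Finset.sum_congr rfl (fun s _ => hs s), ← Finset.mul_sum,
      ← Finset.mul_sum, Finset.sum_comm]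
    ring
  rw [hsum, Nat.cast_mul]
  apply mul_le_mul_of_nonneg_left _ (Nat.cast_nonneg _)
  have hnn : ∀ r, (0 : ℝ) ≤ κ * ∑ s ∈ R, (l * ∑ t ∈ Finset.range l,
        Complex.normSq (n r t s) - Complex.normSq (∑ t ∈ Finset.range l, n r t s)) :=
    fun r => le_trans (mul_nonneg (Nat.cast_nonneg _) (Nat.cast_nonneg _)) (hcl r)
  refine le_trans ?_ (Finset.single_le_sum (fun r _ => hnn r) hr₀)
  refine le_trans ?_ (hcl r₀)
  rw [← Nat.cast_mul]
  apply Nat.cast_le.2
  obtain ⟨k, hk⟩ : ∃ k, k = (T r₀).card := ⟨_, rfl⟩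
  have hk1 := hT0 r₀
  rw [← hk] at hk1 hk₀ ⊢
  obtain ⟨d, rfl⟩ : ∃ d, l = k + 1 + d := ⟨l - (k + 1), by omega⟩
  obtain ⟨k', rfl⟩ : ∃ k', k = k' + 1 := ⟨k - 1, by omega⟩
  have e1 : k' + 1 + 1 + d - 1 = k' + 1 + d := by omega
  have e2 : k' + 1 + 1 + d - (k' + 1) = 1 + d := by omega
  rw [e1, e2]
  nlinarith

end Pool.Agent.PP.T5.H92
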