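import Pool.Agent.AT5.Stmts1
import Pool.Agent.Helper92_AT5.GL5a
import Pool.Agent.Helper63_AT3.INR
import Pool.Agent.Helper94_PP.LemQ

/-!
# Squad AT5, row GL5: the sum over the conjugates
-/

set_option autoImplicit false

open scoped BigOperators

noncomputable section

namespace Pool.Agent.PP.T5.H92

open Pool.Agent.Helper51_AWC Pool.Agent.Helper79_WRA Pool.Agent.PP Pool.Agent.PP.KF
open Pool.Agent.PP.K9 Pool.Agent.PP.K9.H97 Pool.Agent.PP.H75 Pool.Agent.PP.T3 Pool.Agent.PP.T2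

attribute [local instance] Ideal.Quotient.field

/-- the convolution of the restriction of `χ` with an irreducible character -/
theorem conv_irr {G : Type} [Group G] {C : Subgroup G} [Fintype C] {χ : G → ℂ} (hχ : χ ∈ Irr G)
    {θ : C → ℂ} (hθ : θ ∈ Irr C) (w : C) :
    θ 1 * ((Nat.card C : ℂ)⁻¹ * ∑ c : C, θ c⁻¹ * χ (w * c)) =
      ((Nat.card C : ℂ)⁻¹ * ∑ c : C, χ c * θ c⁻¹) * θ w := by
  have hcl : ∀ g h : C, (fun t : C => χ (t⁻¹ : C)) (h * g * h⁻¹) =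
      (fun t : C => χ (t⁻¹ : C)) g := by
    intro g h
    obtain ⟨n, ρ, hρ, rfl⟩ := hχ
    change ρ.character ((h * g * h⁻¹)⁻¹ : C) = ρ.character (g⁻¹ : C)
    have e : (((h * g * h⁻¹)⁻¹ : C) : G) = (h : G) * ((g⁻¹ : C) : G) * (h : G)⁻¹ := by
      rw [Subgroup.coe_inv, Subgroup.coe_mul, Subgroup.coe_mul, Subgroup.coe_inv,
        Subgroup.coe_inv]
      group
    rw [e]
    exact Representation.char_conj _ _ _
  have h1 := H94.eig_conv (A := fun t : C => χ (t⁻¹ : C)) hθ hcl w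
  have h2 := H94.eig_conv (A := fun t : C => χ (t⁻¹ : C)) hθ hcl 1
  have e1 : ∑ t : C, (fun t : C => χ (t⁻¹ : C)) t * θ (t * w) = ∑ c : C, θ c⁻¹ * χ (w * c) := by
    refine Fintype.sum_equiv ((Equiv.inv C).trans (Equiv.mulLeft w⁻¹)) _ _ fun t => ?_
    rw [Equiv.trans_apply, Equiv.inv_apply, Equiv.coe_mulLeft]
    have e2 : (w : G) * ((w⁻¹ * t⁻¹ : C) : G) = ((t⁻¹ : C) : G) := by
      rw [Subgroup.coe_mul, Subgroup.coe_inv, mul_inv_cancel_left]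
    have e3 : (w⁻¹ * t⁻¹)⁻¹ = t * w := by group
    rw [e2, e3, mul_comm]
  have e2 : ∑ t : C, (fun t : C => χ (t⁻¹ : C)) t * θ (t * 1) = ∑ c : C, χ c * θ c⁻¹ := by
    refine Fintype.sum_equiv (Equiv.inv C) _ _ fun t => ?_
    rw [Equiv.inv_apply, inv_inv, mul_one]
  rw [e1] at h1
  rw [e2] at h2
  rw [h1, h2]
  ring

/-- the sum over the regular elements of a subgroup -/
theorem finsum_reg {G : Type} [Group G] {C : Subgroup G} [Fintype C] {ℓ : ℕ}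
    [DecidablePred (fun s : C => Reg ℓ s)] {A : Type} [AddCommMonoid A] (f : G → A) :
    ∑ᶠ (s : G) (_ : s ∈ C ∧ Reg ℓ s), f s =
      ∑ s ∈ Finset.univ.filter (fun s : C => Reg ℓ s), f s := by
  classical
  have h1 : ∀ s : C, Reg ℓ s ↔ Reg ℓ (s : G) := by
    intro s
    unfold Reg
    rw [Subgroup.orderOf_coe]
  have h2 : ({s : G | s ∈ C ∧ Reg ℓ s} : Set G) =
      ((Finset.univ.filter (fun s : C => Reg ℓ s)).image (fun s : C => (s : G)) : Set G) := by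
    ext s
    rw [Finset.coe_image, Finset.coe_filter, Set.mem_image]
    constructor
    · rintro ⟨hs, hr⟩
      exact ⟨⟨s, hs⟩, ⟨Finset.mem_univ _, (h1 _).2 hr⟩, rfl⟩
    · rintro ⟨t, ht, rfl⟩
      exact ⟨t.2, (h1 _).1 ht.2⟩
  have h3 : ∑ᶠ (s : G) (_ : s ∈ C ∧ Reg ℓ s), f s = ∑ᶠ s ∈ {s : G | s ∈ C ∧ Reg ℓ s}, f s := rfl
  rw [h3, h2, finsum_mem_coe_finset, Finset.sum_image]
  intro a _ b _ h
  exact Subtype.ext h

theorem finsum_reg' {H : Type} [Fintype H] [Group H] {ℓ : ℕ}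
    [DecidablePred (fun s : H => Reg ℓ s)] {A : Type} [AddCommMonoid A] (f : H → A) :
    ∑ᶠ (s : H) (_ : Reg ℓ s), f s = ∑ s ∈ Finset.univ.filter (fun s : H => Reg ℓ s), f s := by
  have h3 : ∑ᶠ (s : H) (_ : Reg ℓ s), f s = ∑ᶠ s ∈ {s : H | Reg ℓ s}, f s := rfl
  have h2 : ({s : H | Reg ℓ s} : Set H) =
      ((Finset.univ.filter (fun s : H => Reg ℓ s) : Finset H) : Set H) := by
    ext s
    simp
  rw [h3, h2, finsum_mem_coe_finset]

/-- GL5 -/
theorem gl5 (inq : InqStmt) (nz5 : Nz5Stmt) (lbx : LbxStmt) : Gl5Stmt := by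
  intro ℓ hfact M _ hM G _ _ e V u b hL a ha hou χ hχ
  classical
  have := Fintype.ofFinite G
  have := Fintype.ofFinite (Cu u)
  have hp : ℓ.Prime := Fact.out
  have hl2 := hp.two_le
  obtain ⟨b', hb'⟩ : ∃ b' : Cu u → FF M, b' = fun t : Cu u => b t := ⟨_, rfl⟩
  obtain ⟨htp, hVc⟩ := (lbx ℓ M hM G e V u hL.blk hL.tp hL.mem hL.cen).2 b hL
  have hS : (IrrE M b').Finite := irr_finite'.subset (fun θ h => h.1)
  obtain ⟨uC, huC⟩ : ∃ uC : Cu u, (uC : G) = u :=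
    ⟨⟨u, Subgroup.mem_centralizer_singleton_iff.2 rfl⟩, rfl⟩
  have hz : ∀ c : Cu u, uC * c = c * uC := by
    intro c
    apply Subtype.ext
    show (uC : G) * c = c * uC
    rw [huC]
    exact (Subgroup.mem_centralizer_singleton_iff.1 c.2).symm
  obtain ⟨N, hN⟩ : ∃ N : ℕ, N = ℓ ^ (a - 1) := ⟨_, rfl⟩
  have hN0 : 0 < N := by rw [hN]; exact Nat.pow_pos hp.pos
  have hNl : ℓ ^ a = N * ℓ := by
    rw [hN, ← pow_succ]
    congr 1
    omega
  have hq0 : 0 < N * ℓ := Nat.mul_pos hN0 hp.pos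
  have hzq : uC ^ (N * ℓ) = 1 := by
    apply Subtype.ext
    rw [Subgroup.coe_pow, huC, ← hNl, ← hou, pow_orderOf_eq_one, Subgroup.coe_one]
  have hζ := Complex.isPrimitiveRoot_exp (N * ℓ) hq0.ne'
  generalize Complex.exp (2 * Real.pi * Complex.I / ((N * ℓ : ℕ) : ℂ)) = ζ at hζ
  -- the exponents and the multiplicities
  have h1 : ∀ θ ∈ hS.toFinset, ∃ i : ℕ, i < N * ℓ ∧
      ∀ (j : ℕ) (c : Cu u), θ (uC ^ j * c) = (ζ ^ i) ^ j * θ c := by
    intro θ hθ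
    have hθ' : θ ∈ Irr (Cu u) := (hS.mem_toFinset.1 hθ).1
    obtain ⟨k, hk, hkj⟩ := T3.H63.cent_root hθ' hz hzq
    have : NeZero (N * ℓ) := ⟨hq0.ne'⟩
    obtain ⟨i, hi, rfl⟩ := hζ.eq_pow_of_pow_eq_one hk
    exact ⟨i, hi, hkj⟩
  have h2 : ∀ θ ∈ hS.toFinset, ∃ m : ℤ,
      (Nat.card (Cu u) : ℂ)⁻¹ * ∑ c : Cu u, χ c * θ c⁻¹ = m := by
    intro θ hθ
    exact KF.H30.mult_int (Cu u) hχ.1 (hS.mem_toFinset.1 hθ).1
  choose! ix hix hix2 using h1
  choose! mu hmu using h2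
  obtain ⟨ψ, hψ⟩ : ∃ ψ : ℕ → Cu u → ℂ, ψ = fun i s =>
    ∑ θ ∈ hS.toFinset, (((if ix θ = i then mu θ else 0) : ℤ) : ℂ) * θ s := ⟨_, rfl⟩
  -- the values
  have hgv : ∀ (j : ℕ) (s : Cu u), gv M (Cu u) (u ^ j * s) b χ =
      ∑ i ∈ Finset.range (N * ℓ), ψ i s * ζ ^ (i * j) := by
    intro j s
    have e1 : gv M (Cu u) (u ^ j * s) b χ = ∑ c : Cu u, eh M b' c * χ (u ^ j * s * c) := by
      rw [gv, gbv, finsum_eq_sum_of_fintype, hb']
    have e2 : ∀ c : Cu u, eh M b' c =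
        (Nat.card (Cu u) : ℂ)⁻¹ * ∑ θ ∈ hS.toFinset, θ 1 * θ c⁻¹ := by
      intro c
      rw [eh, finsum_mem_eq_finite_toFinset_sum _ hS]
    have e3 : gv M (Cu u) (u ^ j * s) b χ = ∑ θ ∈ hS.toFinset, θ 1 *
        ((Nat.card (Cu u) : ℂ)⁻¹ * ∑ c : Cu u, θ c⁻¹ * χ (((uC ^ j * s : Cu u) : G) * c)) := by
      rw [e1]
      simp only [e2]
      have e4 : ((uC ^ j * s : Cu u) : G) = u ^ j * s := by
        rw [Subgroup.coe_mul, Subgroup.coe_pow, huC]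
      rw [e4]
      simp_rw [Finset.mul_sum, Finset.sum_mul]
      rw [Finset.sum_comm]
      refine Finset.sum_congr rfl fun θ _ => Finset.sum_congr rfl fun c _ => ?_
      ring
    rw [e3]
    have e5 : ∀ θ ∈ hS.toFinset, θ 1 * ((Nat.card (Cu u) : ℂ)⁻¹ *
        ∑ c : Cu u, θ c⁻¹ * χ (((uC ^ j * s : Cu u) : G) * c)) =
        ∑ i ∈ Finset.range (N * ℓ),
          (((if ix θ = i then mu θ else 0) : ℤ) : ℂ) * θ s * ζ ^ (i * j) := by
      intro θ hθ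
      rw [conv_irr hχ.1 (hS.mem_toFinset.1 hθ).1, hmu θ hθ, hix2 θ hθ,
        Finset.sum_eq_single (ix θ)]
      · rw [if_pos rfl, pow_mul]
        ring
      · intro i _ hi
        rw [if_neg (Ne.symm hi), Int.cast_zero, zero_mul, zero_mul]
      · intro h
        exact absurd (Finset.mem_range.2 (hix θ hθ)) h
    rw [Finset.sum_congr rfl e5, Finset.sum_comm]
    refine Finset.sum_congr rfl fun i _ => ?_
    rw [hψ]
    change _ = (∑ θ ∈ hS.toFinset, (((if ix θ = i then mu θ else 0) : ℤ) : ℂ) * θ s) * _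
    rw [Finset.sum_mul]
  -- the form
  obtain ⟨κ, hκ⟩ : ∃ κ : ℝ, κ = (Nat.card V : ℝ) * (Nat.card (Cu u) : ℝ)⁻¹ := ⟨_, rfl⟩
  have hCpos : (0 : ℝ) < Nat.card (Cu u) := by exact_mod_cast Nat.card_pos
  have hVpos : (0 : ℝ) < Nat.card V := by exact_mod_cast Nat.card_pos
  have hκ0 : 0 < κ := by rw [hκ]; positivity
  obtain ⟨R, hR⟩ : ∃ R : Finset (Cu u), R = Finset.univ.filter (fun s : Cu u => Reg ℓ s) :=
    ⟨_, rfl⟩
  have hrip : ∀ θ ∈ hS.toFinset, ∀ θ' ∈ hS.toFinset, ∃ n : ℤ,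
      (κ : ℂ) * ∑ s ∈ R, θ s * starRingEnd ℂ (θ' s) = n := by
    intro θ hθ θ' hθ'
    obtain ⟨n, hn⟩ := inq ℓ M hM (Cu u) b' (by rw [hb']; exact hL.bx.blk) _
      (by rw [hb']; exact htp) θ (hS.mem_toFinset.1 hθ) θ' (hS.mem_toFinset.1 hθ')
    refine ⟨n, ?_⟩
    rw [← hn, hVc, rip, finsum_reg', ← hR, hκ]
    push_cast
    ring
  have hint0 : ∀ c : (Cu u → ℂ) → ℤ, ∃ n : ℤ,
      κ * ∑ s ∈ R, Complex.normSq (∑ θ ∈ hS.toFinset, (c θ : ℂ) * θ s) = n := by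
    intro c
    choose! n hn using hrip
    refine ⟨∑ θ ∈ hS.toFinset, ∑ θ' ∈ hS.toFinset, c θ * c θ' * n θ θ', ?_⟩
    have hC : ((κ * ∑ s ∈ R, Complex.normSq (∑ θ ∈ hS.toFinset, (c θ : ℂ) * θ s) : ℝ) : ℂ) =
        ((∑ θ ∈ hS.toFinset, ∑ θ' ∈ hS.toFinset, c θ * c θ' * n θ θ' : ℤ) : ℂ) := by
      push_cast
      have e1 : ∀ s ∈ R, ((Complex.normSq (∑ θ ∈ hS.toFinset, (c θ : ℂ) * θ s) : ℝ) : ℂ) =
          ∑ θ ∈ hS.toFinset, ∑ θ' ∈ hS.toFinset, (c θ : ℂ) * c θ' *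
            (θ s * starRingEnd ℂ (θ' s)) := by
        intro s _
        rw [← Complex.mul_conj, map_sum, Finset.sum_mul_sum]
        refine Finset.sum_congr rfl fun θ _ => Finset.sum_congr rfl fun θ' _ => ?_
        rw [map_mul, map_intCast]
        ring
      rw [Finset.sum_congr rfl e1, Finset.mul_sum]
      simp_rw [Finset.mul_sum]
      rw [Finset.sum_comm]
      refine Finset.sum_congr rfl fun θ hθ => ?_
      rw [Finset.sum_comm]
      refine Finset.sum_congr rfl fun θ' hθ' => ?_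
      rw [← hn θ hθ θ' hθ', Finset.mul_sum, Finset.mul_sum]
      refine Finset.sum_congr rfl fun s _ => ?_
      ring
    exact_mod_cast hC
  have hint : ∀ i i', (∀ s ∈ R, ψ i s - ψ i' s = 0) ∨
      1 ≤ κ * ∑ s ∈ R, Complex.normSq (ψ i s - ψ i' s) := by
    intro i i'
    by_cases h : ∀ s ∈ R, ψ i s - ψ i' s = 0
    · exact Or.inl h
    · right
      obtain ⟨n, hn⟩ := hint0 (fun θ => (if ix θ = i then mu θ else 0) -
        (if ix θ = i' then mu θ else 0))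
      have e1 : ∀ s : Cu u, ∑ θ ∈ hS.toFinset, (((if ix θ = i then mu θ else 0) -
          (if ix θ = i' then mu θ else 0) : ℤ) : ℂ) * θ s = ψ i s - ψ i' s := by
        intro s
        rw [hψ]
        change _ = (∑ θ ∈ hS.toFinset, (((if ix θ = i then mu θ else 0) : ℤ) : ℂ) * θ s) -
          ∑ θ ∈ hS.toFinset, (((if ix θ = i' then mu θ else 0) : ℤ) : ℂ) * θ s
        rw [← Finset.sum_sub_distrib]
        refine Finset.sum_congr rfl fun θ _ => ?_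
        rw [Int.cast_sub, sub_mul]
      simp only [e1] at hn
      rw [hn]
      push Not at h
      obtain ⟨s, hs, hne⟩ := h
      have hpos : 0 < κ * ∑ s ∈ R, Complex.normSq (ψ i s - ψ i' s) := by
        apply mul_pos hκ0
        exact Finset.sum_pos' (fun s _ => Complex.normSq_nonneg _)
          ⟨s, hs, Complex.normSq_pos.2 hne⟩
      rw [hn] at hpos
      have h3 : (0 : ℤ) < n := by exact_mod_cast hpos
      exact_mod_cast h3
  have hne : ∃ s ∈ R, ∑ i ∈ Finset.range (N * ℓ), ψ i s * ζ ^ i ≠ 0 := by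
    refine ⟨1, ?_, ?_⟩
    · rw [hR, Finset.mem_filter]
      refine ⟨Finset.mem_univ _, ?_⟩
      unfold Reg
      rw [orderOf_one]
      exact Nat.coprime_one_left ℓ
    · have e1 := hgv 1 1
      rw [pow_one, Subgroup.coe_one, mul_one] at e1
      simp only [mul_one] at e1
      rw [← e1]
      exact nz5 ℓ M hM G e V u b hL χ hχ
  have hmain := core hN0 hl2 hζ R ψ κ hint hκ0.le hne
  rw [← hN, hNl]
  refine hmain.trans (le_of_eq ?_)
  rw [Finset.mul_sum, Finset.mul_sum]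
  refine Finset.sum_congr rfl fun j _ => ?_
  rw [nm, finsum_reg, ← hR, hκ]
  simp only [hgv]
  ring

end Pool.Agent.PP.T5.H92
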