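import Pool.Agent.AT5.Stmts2
import Pool.Agent.Helper72_AT2.ORT
import Pool.Agent.Helper57_K9.Gq9

/-!
# Squad AT5, row UO5: the idempotents over different conjugates of `U` are orthogonal
-/

set_option autoImplicit false

open scoped BigOperators

noncomputable section

namespace Pool.Agent.PP.T5.H92

open Pool.Agent.Helper51_AWC Pool.Agent.Helper79_WRA Pool.Agent.PP Pool.Agent.PP.KF
open Pool.Agent.PP.K9 Pool.Agent.PP.K9.H97 Pool.Agent.PP.H75 Pool.Agent.PP.T3 Pool.Agent.PP.T2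

attribute [local instance] Ideal.Quotient.field

section

variable {F G : Type} [Field F] [Group G] [Finite G]

omit [Finite G] in
theorem cj_of_cl {X : Subgroup G} {c : G → F} (hs : ∀ x, x ∉ X → c x = 0)
    (hc : IsCl (fun t : X => c t)) {n : G} (hn : n ∈ X) : cj n c = c := by
  funext x
  change c (n⁻¹ * x * n) = c x
  by_cases hx : x ∈ X
  · have h1 := hc ⟨x, hx⟩ ⟨n⁻¹, X.inv_mem hn⟩
    change c (n⁻¹ * x * n⁻¹⁻¹) = c x at h1
    rwa [inv_inv] at h1
  · rw [hs x hx, hs]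
    intro h'
    apply hx
    have := X.mul_mem (X.mul_mem hn h') (X.inv_mem hn)
    have e : n * (n⁻¹ * x * n) * n⁻¹ = x := by group
    rwa [e] at this

omit [Finite G] in
theorem cj_clsum {X : Subgroup G} (x : G) {n : G} (hn : n ∈ X) :
    cj n (clsum F X x) = clsum F X x := by
  funext t
  change clsum F X x (n⁻¹ * t * n) = clsum F X x t
  have h : (∃ q ∈ X, n⁻¹ * t * n = q * x * q⁻¹) ↔ ∃ q ∈ X, t = q * x * q⁻¹ := by
    constructor
    · rintro ⟨q, hq, h1⟩
      refine ⟨n * q, X.mul_mem hn hq, ?_⟩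
      calc t = n * (n⁻¹ * t * n) * n⁻¹ := by group
        _ = n * q * x * (n * q)⁻¹ := by rw [h1]; group
    · rintro ⟨q, hq, h1⟩
      refine ⟨n⁻¹ * q, X.mul_mem (X.inv_mem hn) hq, ?_⟩
      rw [h1]
      group
  by_cases h2 : ∃ q ∈ X, t = q * x * q⁻¹
  · rw [clsum, clsum, if_pos h2, if_pos (h.2 h2)]
  · rw [clsum, clsum, if_neg h2, if_neg (fun h3 => h2 (h.1 h3))]

omit [Finite G] in
theorem clsum_supp {X : Subgroup G} {x : G} (hx : x ∈ X) : ∀ t, t ∉ X → clsum F X x t = 0 := by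
  intro t ht
  rw [clsum, if_neg]
  rintro ⟨q, hq, h1⟩
  apply ht
  rw [h1]
  exact X.mul_mem (X.mul_mem hq hx) (X.inv_mem hq)

/-- an invertible class function of `N(U)`, conjugated and restricted to `C(Q)` -/
theorem inv_conj {ℓ : ℕ} (hF : GoodF ℓ F) {U : Subgroup G} {z f : G → F}
    (hzs : ∀ x, x ∉ Subgroup.normalizer (U : Set G) → z x = 0)
    (hz : ∀ n ∈ Subgroup.normalizer (U : Set G), cj n z = z)
    (hf : Ix (Subgroup.normalizer (U : Set G)) f)
    (hI : T5.Inv (fun t : Subgroup.normalizer (U : Set G) => z t)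
      (fun t : Subgroup.normalizer (U : Set G) => f t)) {Q : Subgroup G} (hQ : IsPGroup ℓ Q)
    {g : G} (hb : Bt U Q g) {b : G → F} (hfb : mulF (br Q (cj g f)) b = b) :
    IsCl (fun t : Subgroup.centralizer (Q : Set G) => br Q (cj g z) t) ∧
    T5.Inv (fun t : Subgroup.centralizer (Q : Set G) => br Q (cj g z) t)
      (fun t : Subgroup.centralizer (Q : Set G) => b t) := by
  obtain ⟨c₀, hc₀, hcz⟩ := hI
  have hCN : Subgroup.centralizer (Q : Set G) ≤ Subgroup.normalizer (conjS g U : Set G) :=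
    (Subgroup.centralizer_le (show ((conjS g U : Subgroup G) : Set G) ⊆ Q from hb.1)).trans
      (T3.H85.cent_le_norm _)
  have hQN : Q ≤ Subgroup.normalizer (conjS g U : Set G) :=
    hb.2.trans (T3.H85.cent_le_norm _)
  -- the inverse, as a function on `G`
  obtain ⟨c, hcdef⟩ : ∃ c : G → F,
    c = H75.ext0 (Subgroup.normalizer (U : Set G)) c₀ := ⟨_, rfl⟩
  have hcs : ∀ x, x ∉ Subgroup.normalizer (U : Set G) → c x = 0 := by
    rw [hcdef]
    exact H75.ext0_supp _ c₀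
  have hcC : (fun t : Subgroup.normalizer (U : Set G) => c t) = c₀ := by
    rw [hcdef]
    exact funext (H75.ext0_apply _ c₀)
  have hc : ∀ n ∈ Subgroup.normalizer (U : Set G), cj n c = c := fun n hn =>
    cj_of_cl hcs (by rw [hcC]; exact hc₀) hn
  have hczs := H75.mulF_supp (Subgroup.normalizer (U : Set G)) hcs hzs
  have h1 : mulF (mulF c z) f = f := by
    apply H75.eq_of_res (H75.mulF_supp _ hczs hf.supp) hf.supp
    rw [H75.mulF_res _ _ hczs, H75.mulF_res _ _ hcs, hcC]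
    exact hcz
  -- invariance of the conjugates
  have hinv : ∀ w : G → F, (∀ n ∈ Subgroup.normalizer (U : Set G), cj n w = w) →
      ∀ n ∈ Subgroup.normalizer (conjS g U : Set G), ∀ t, cj g w (n * t * n⁻¹) = cj g w t := by
    intro w hw n hn
    rw [← cj_eq_iff, cj_cj]
    have h2 := hw _ ((T3.H62.mem_norm_conjS n).1 hn)
    conv_rhs => rw [← h2]
    rw [cj_cj]
    congr 1
    group
  have hcl : ∀ w : G → F, (∀ n ∈ Subgroup.normalizer (U : Set G), cj n w = w) →
      IsCl (fun t : Subgroup.centralizer (Q : Set G) => br Q (cj g w) t) := by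
    intro w hw x y
    change br Q (cj g w) (y * x * (y : G)⁻¹) = br Q (cj g w) x
    rw [H66.br_of_mem x.2, H66.br_of_mem
      (mul_mem (mul_mem y.2 x.2) (inv_mem y.2))]
    exact hinv w hw _ (hCN y.2) _
  have hf' : ∀ n ∈ Subgroup.normalizer (U : Set G), cj n f = f := fun n hn => hf.inv hn
  have hzc : ∀ n ∈ Subgroup.normalizer (U : Set G), cj n (mulF c z) = mulF c z := by
    intro n hn
    rw [cj_mulF, hc n hn, hz n hn]
  -- apply the Brauer map
  have h3 : mulF (mulF (br Q (cj g c)) (br Q (cj g z))) (br Q (cj g f)) = br Q (cj g f) := by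
    have h4 := congrArg (fun w => br Q (cj g w)) h1
    change br Q (cj g (mulF (mulF c z) f)) = br Q (cj g f) at h4
    rw [cj_mulF, H66.br_mulF hF hQ (fun p hp t => hinv _ hzc p (hQN hp) t)
      (fun p hp t => hinv _ hf' p (hQN hp) t), cj_mulF,
      H66.br_mulF hF hQ (fun p hp t => hinv _ hc p (hQN hp) t)
      (fun p hp t => hinv _ hz p (hQN hp) t)] at h4
    exact h4
  have h5 : mulF (mulF (br Q (cj g c)) (br Q (cj g z))) b = b := by
    have h6 := congrArg (fun w => mulF w b) h3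
    change mulF (mulF _ (br Q (cj g f))) b = mulF (br Q (cj g f)) b at h6
    rw [H20.mulF_assoc, hfb] at h6
    exact h6
  have hs1 : ∀ x, x ∉ Subgroup.centralizer (Q : Set G) → br Q (cj g c) x = 0 :=
    fun x hx => H66.br_of_not_mem hx
  have hs2 : ∀ x, x ∉ Subgroup.centralizer (Q : Set G) → br Q (cj g z) x = 0 :=
    fun x hx => H66.br_of_not_mem hx
  refine ⟨hcl z hz, fun t : Subgroup.centralizer (Q : Set G) => br Q (cj g c) t, hcl c hc, ?_⟩
  rw [← H75.mulF_res _ _ hs1, ← H75.mulF_res _ _ (H75.mulF_supp _ hs1 hs2), h5]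

end

/-- the element of the class of `u y` in the centre of a defect group of a block of `C(Q)` -/
theorem key (zpt : ZptStmt) (ksp : KspStmt) {ℓ : ℕ} [Fact ℓ.Prime]
    {M : Ideal (integralClosure ℤ ℂ)} [M.IsMaximal] (hM : (ℓ : integralClosure ℤ ℂ) ∈ M)
    {G : Type} [Group G] [Finite G] {a : ℕ} (ha : 0 < a) {u y : G} (hou : orderOf u = ℓ ^ a)
    (huy : u * y = y * u) (hy : Reg ℓ y) {f : G → FF M}
    (hf : Ix (Subgroup.normalizer (Om ℓ a u : Set G)) f)
    (huX : u * y ∈ Subgroup.normalizer (Om ℓ a u : Set G))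
    (hI : T5.Inv (fun t : Subgroup.normalizer (Om ℓ a u : Set G) =>
      clsum (FF M) (Subgroup.normalizer (Om ℓ a u : Set G)) (u * y) t)
      (fun t : Subgroup.normalizer (Om ℓ a u : Set G) => f t)) {Q : Subgroup G}
    (hQ : IsPGroup ℓ Q) {g : G} (hb : Bt (Om ℓ a u) Q g) {b : G → FF M}
    (hbx : Bx (Subgroup.centralizer (Q : Set G)) b) (hfb : mulF (br Q (cj g f)) b = b)
    {P : Subgroup (Subgroup.centralizer (Q : Set G))}
    (hP : Tp ℓ (fun t : Subgroup.centralizer (Q : Set G) => b t) P) :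
    ∃ u₁ ∈ P.map (Subgroup.centralizer (Q : Set G)).subtype,
      (∀ w ∈ P.map (Subgroup.centralizer (Q : Set G)).subtype, w * u₁ = u₁ * w) ∧
      orderOf u₁ = ℓ ^ a ∧ Om ℓ a u₁ = conjS g (Om ℓ a u) := by
  have hF : GoodF ℓ (FF M) := H50.fld ℓ Fact.out M hM
  obtain ⟨hcl, hinv⟩ := inv_conj hF (clsum_supp huX) (fun n hn => cj_clsum _ hn) hf hI hQ hb hfb
  obtain ⟨c, hcP, hc0, hcL⟩ := zpt ℓ M hM _ _ hbx.blk P hP _ hcl hinv
  change br Q (cj g _) (c : G) ≠ 0 at hc0
  rw [H66.br_of_mem c.2] at hc0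
  obtain ⟨u', hL, ho, hOm, ⟨n, hn⟩, -⟩ := (ksp ℓ (FF M) G a u y ha hou huy hy).2 g c hc0
  have hmem : c ^ n ∈ P := by
    apply hcL
    refine ⟨?_, Commute.pow_left (Commute.refl c) n, ?_⟩
    · obtain ⟨m, hm⟩ := hL.el
      refine ⟨m, Subtype.ext ?_⟩
      rw [hn] at hm
      exact hm
    · have h1 := hL.reg
      unfold Reg at h1 ⊢
      rw [hn] at h1
      have h2 : ((((c ^ n)⁻¹ * c : Subgroup.centralizer (Q : Set G)) : G)) =
        (((c : G) ^ n)⁻¹ * c : G) := rfl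
      rwa [← h2, Subgroup.orderOf_coe] at h1
  have hcoe : ((c ^ n : Subgroup.centralizer (Q : Set G)) : G) = u' := by
    rw [hn]
    rfl
  refine ⟨u', ⟨c ^ n, hmem, hcoe⟩, ?_, ho, hOm⟩
  rintro _ ⟨w, hw, rfl⟩
  have h3 : w * c = c * w := Subgroup.mem_centralizer_iff.1 hcP w hw
  have h4 : w * c ^ n = c ^ n * w := ((show Commute w c from h3).pow_right n).eq
  have h5 := congrArg Subtype.val h4
  rw [hn]
  exact h5

/-- UO5 -/
theorem uo5 (chr : ChrStmt) (zpt : ZptStmt) (ksp : KspStmt) : Uo5Stmt := by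
  intro ℓ _ M _ hM G _ _ a e V u y hU f hf
  have hF : GoodF ℓ (FF M) := H50.fld ℓ Fact.out M hM
  refine ⟨hf.blk.ix, hf.supp, hf.und, ?_⟩
  intro Q hQ g h hbg hbh hne
  obtain ⟨hI1, hE1⟩ := T2.H72.conj_data hF hU.blk.1.1 hf.blk hf.und hQ hbg
  obtain ⟨hI2, -⟩ := T2.H72.conj_data hF hU.blk.1.1 hf.blk hf.und hQ hbh
  by_contra hcon
  have hs : ∀ x, x ∉ Subgroup.centralizer (Q : Set G) →
      mulF (br Q (cj g f)) (br Q (cj h f)) x = 0 := H75.mulF_supp _ hI1.supp hI2.supp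
  have hcomm := hI1.comm hI2
  -- `E₁ E₂` is an idempotent
  have hmm : mulF (mulF (br Q (cj g f)) (br Q (cj h f)))
      (mulF (br Q (cj g f)) (br Q (cj h f))) = mulF (br Q (cj g f)) (br Q (cj h f)) := by
    rw [H20.mulF_assoc, ← H20.mulF_assoc (br Q (cj h f)) (br Q (cj g f)), ← hcomm,
      H20.mulF_assoc (br Q (cj g f)) (br Q (cj h f)), hI2.mul, ← H20.mulF_assoc, hI1.mul]
  have hI : Ix (Subgroup.centralizer (Q : Set G)) (mulF (br Q (cj g f)) (br Q (cj h f))) := by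
    refine ⟨hs, ?_, ?_⟩
    · intro x y
      have h1 : cj (y : G)⁻¹ (mulF (br Q (cj g f)) (br Q (cj h f))) =
          mulF (br Q (cj g f)) (br Q (cj h f)) := by
        rw [cj_mulF, hI1.inv (inv_mem y.2), hI2.inv (inv_mem y.2)]
      have h2 := congrFun h1 x
      rw [cj, inv_inv] at h2
      exact h2
    · rw [← H75.mulF_res _ _ hs, hmm]
  obtain ⟨b₀, hb₀, hgb, -⟩ := K9.H24.exists_blk
    (L := fun a : Subgroup.centralizer (Q : Set G) → FF M => a) rfl
    (fun a b => rfl) hI.idem (by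
      intro h0
      apply hcon
      exact H75.eq_of_res hI.supp (fun _ _ => rfl) h0)
  obtain ⟨b, hb⟩ : ∃ b : G → FF M, b = H75.ext0 (Subgroup.centralizer (Q : Set G)) b₀ := ⟨_, rfl⟩
  have hbs : ∀ x, x ∉ Subgroup.centralizer (Q : Set G) → b x = 0 := by
    rw [hb]
    exact H75.ext0_supp _ b₀
  have hbC : (fun t : Subgroup.centralizer (Q : Set G) => b t) = b₀ := by
    rw [hb]
    exact funext (H75.ext0_apply _ b₀)
  have hBb : Bx (Subgroup.centralizer (Q : Set G)) b := ⟨hbs, by rw [hbC]; exact hb₀⟩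
  have hEb : mulF (mulF (br Q (cj g f)) (br Q (cj h f))) b = b := by
    apply H75.eq_of_res (H75.mulF_supp _ hI.supp hbs) hbs
    rw [H75.mulF_res _ b hI.supp, hbC, hgb]
  have h1b : mulF (br Q (cj g f)) b = b := by
    conv_lhs => rw [← hEb]
    rw [← H20.mulF_assoc, ← H20.mulF_assoc, hI1.mul, hEb]
  have h2b : mulF (br Q (cj h f)) b = b := by
    conv_lhs => rw [← hEb]
    rw [hcomm, ← H20.mulF_assoc, ← H20.mulF_assoc, hI2.mul, ← hcomm, hEb]
  have heb : mulF (br Q e) b = b := by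
    rw [← h1b, ← H20.mulF_assoc, hE1]
  -- a defect group of `b`
  obtain ⟨P, hP⟩ := K9.H57.exists_tp (ℓ := ℓ) hBb.blk.2.1
  have huy : u * y = y * u := by
    have := Subgroup.mem_centralizer_iff.1 hU.yc u hU.mem
    exact this
  have huX : u * y ∈ Subgroup.normalizer (Om ℓ a u : Set G) := by
    apply T3.H85.cent_le_norm
    rw [Subgroup.mem_centralizer_iff]
    intro w hw
    obtain ⟨k, rfl⟩ := Subgroup.mem_zpowers_iff.1 hw
    have h1 : Commute u (u * y) := by
      change u * (u * y) = u * y * u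
      rw [mul_assoc, huy]
    exact ((h1.pow_left _).zpow_left k).eq
  obtain ⟨u₁, hu₁, hc₁, ho₁, hO₁⟩ := key zpt ksp hM hU.pos hU.ord huy hU.reg hf.blk.ix huX hf.inv
    hQ hbg hBb h1b hP
  obtain ⟨u₂, hu₂, hc₂, ho₂, hO₂⟩ := key zpt ksp hM hU.pos hU.ord huy hU.reg hf.blk.ix huX hf.inv
    hQ hbh hBb h2b hP
  -- the order of the defect group
  have hcard : Nat.card (P.map (Subgroup.centralizer (Q : Set G)).subtype) < ℓ ^ (2 * a) := by
    refine lt_of_le_of_lt (hU.tp.mx _ (hP.pg.map _) ?_) hU.small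
    have hbrcl : IsCl (fun t : Subgroup.centralizer (Q : Set G) => br Q e t) := by
      intro x y
      change br Q e (y * x * (y : G)⁻¹) = br Q e x
      rw [H66.br_of_mem x.2, H66.br_of_mem (mul_mem (mul_mem y.2 x.2) (inv_mem y.2))]
      exact hU.blk.1.1 _ _
    have hbrs : ∀ x, x ∉ Subgroup.centralizer (Q : Set G) → br Q e x = 0 :=
      fun x hx => H66.br_of_not_mem hx
    have h1 := gd_of_mul hF hbrcl hBb.blk.1.1
      (by rw [← H75.mulF_res _ _ hbrs, heb]) hP.pg hP.gd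
    obtain ⟨t, ht, ht0⟩ := gd_map h1
    refine ⟨t, ht, fun h0 => ht0 ?_⟩
    by_cases htc : t ∈ Subgroup.centralizer (Q : Set G)
    · rw [H66.br_of_mem htc, h0]
    · exact hbrs t htc
  apply hne
  rw [← hO₁, ← hO₂]
  exact (chr ℓ G a _ u₁ hU.pos hu₁ hc₁ ho₁ hcard).1 u₂ hu₂ hc₂ ho₂

end Pool.Agent.PP.T5.H92
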