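import Pool.Agent.Helper31_AT5.TY5
import Pool.Agent.Helper9_PP.Add

/-!
# Squad AT5, row TX5: the subgroups of `X = N(U)` which are not between `U` and `C(U)`
-/

set_option autoImplicit false

open scoped BigOperators

noncomputable section

namespace Pool.Agent.PP.T5.H92

open Pool.Agent.Helper51_AWC Pool.Agent.Helper79_WRA Pool.Agent.PP Pool.Agent.PP.KF
open Pool.Agent.PP.K9 Pool.Agent.PP.K9.H97 Pool.Agent.PP.H75 Pool.Agent.PP.T3 Pool.Agent.PP.T2

attribute [local instance] Ideal.Quotient.field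

/-- the abstract form -/
theorem tx_aux (omf : OmfStmt) (zpt : ZptStmt) (qtp : QtpStmt) (cyq : CyqStmt) {ℓ : ℕ}
    [Fact ℓ.Prime] {M : Ideal (integralClosure ℤ ℂ)} [M.IsMaximal]
    (hM : (ℓ : integralClosure ℤ ℂ) ∈ M) {X : Type} [Group X] [Finite X] {a p k n : ℕ}
    (ha : 0 < a) {fX K₀ : X → FF M} {W : Subgroup X} (hblk : IsBlk fX) (htp : Tp ℓ fX W)
    (hcy : Cy ℓ a p k W) (hKcl : IsCl K₀) (hKinv : T5.Inv K₀ fX) {U : Subgroup X}
    (hK : ∀ c, K₀ c ≠ 0 → ∃ u', Lp ℓ c u' ∧ orderOf u' = ℓ ^ a ∧ Om ℓ a u' = U ∧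
      ∃ m : ℕ, u' = c ^ m) (hn : Nat.card X ≤ n) (hIh : Ih5 M ℓ a p k n) {Q : Subgroup X}
    (hQ : IsPGroup ℓ Q) (hQb : Q ≠ ⊥)
    (hno : ¬ (U ≤ Q ∧ Q ≤ Subgroup.centralizer (U : Set X))) : YQ ℓ fX Q = 0 := by
  classical
  have hF : GoodF ℓ (FF M) := H50.fld ℓ Fact.out M hM
  have hfid : IsIdem (fun t : Subgroup.normalizer (Q : Set X) => br Q fX t) :=
    (H20.brm ℓ (FF M) hF X Q (Subgroup.normalizer (Q : Set X)) hQ
      (Subgroup.centralizer_le_normalizer _) le_rfl).2.2 fX hblk.1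
  have hker : (QuotientGroup.mk' (Q.subgroupOf (Subgroup.normalizer (Q : Set X)))).ker =
    Q.subgroupOf (Subgroup.normalizer (Q : Set X)) := QuotientGroup.ker_mk' _
  have hs := QuotientGroup.mk'_surjective (Q.subgroupOf (Subgroup.normalizer (Q : Set X)))
  unfold YQ
  refine H9.addStmt ℓ (FF M) hF _ ⊤ inferInstance _ (push_isIdem hs hfid) ?_
  intro f₁ hf₁ hff₁
  obtain ⟨π, hπ⟩ : ∃ π, π = QuotientGroup.mk' (Q.subgroupOf (Subgroup.normalizer (Q : Set X))) :=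
    ⟨_, rfl⟩
  rw [← hπ] at hker hs hff₁
  have hff' : mulF (T5.H31.T π fX) f₁ = f₁ := hff₁
  -- the image of `K₀` is invertible in `f₁`
  have hzcl : IsCl (T5.H31.T π K₀) := T5.H31.T_isCl π hs hKcl
  have hzinv : T5.Inv (T5.H31.T π K₀) f₁ := by
    obtain ⟨c, hc, hce⟩ := hKinv
    refine ⟨T5.H31.T π c, T5.H31.T_isCl π hs hc, ?_⟩
    have h1 := congrArg (T5.H31.T π) hce
    have hi : ∀ b : X → FF M, IsCl b → H66.Inv Q b := fun b hb => H66.IsCl.inv hb Q
    rw [T5.H31.T_mul π hF hQ (hi _ (H50.isCl_mulF hc hKcl)) (hi _ hblk.1.1),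
      T5.H31.T_mul π hF hQ (hi _ hc) (hi _ hKcl)] at h1
    calc mulF (mulF (T5.H31.T π c) (T5.H31.T π K₀)) f₁ =
        mulF (mulF (T5.H31.T π c) (T5.H31.T π K₀)) (mulF (T5.H31.T π fX) f₁) := by rw [hff']
      _ = mulF (mulF (mulF (T5.H31.T π c) (T5.H31.T π K₀)) (T5.H31.T π fX)) f₁ :=
          (mulF_assoc _ _ _).symm
      _ = mulF (T5.H31.T π fX) f₁ := by rw [h1]
      _ = f₁ := hff'
  obtain ⟨V', hV'⟩ := K9.H57.exists_tp (ℓ := ℓ) hf₁.2.1
  obtain ⟨x, hxC, hzx, hxV⟩ := zpt ℓ M hM _ f₁ hf₁ V' hV' _ hzcl hzinv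
  obtain ⟨c, hcx, hcC, hcK⟩ := T5.H31.T_ne π hzx
  obtain ⟨u', hLp, hord, hOm, m, hm⟩ := hK c hcK
  have hu'N : u' ∈ Subgroup.normalizer (Q : Set X) := by
    rw [hm]
    exact pow_mem c.2 m
  have hu'C : u' ∈ Subgroup.centralizer (Q : Set X) := by
    rw [hm]
    exact pow_mem hcC m
  obtain ⟨-, -, -, hOz, -, -, -, hO8⟩ := omf ℓ X a u' ha hord
  have hnot : ¬ U ≤ Q := by
    intro hle
    apply hno
    refine ⟨hle, ?_⟩
    intro w hw
    rw [Subgroup.mem_centralizer_iff]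
    intro r hr
    have hrC : r ∈ Subgroup.centralizer (Q : Set X) := by
      rw [SetLike.mem_coe, ← hOm] at hr
      exact (Subgroup.zpowers_le.2 hu'C) (hOz hr)
    exact (Subgroup.mem_centralizer_iff.1 hrC w hw).symm
  have hkm : π.ker.map (Subgroup.normalizer (Q : Set X)).subtype = Q := by
    rw [hker, Subgroup.subgroupOf_map_subtype]
    exact inf_eq_left.2 Subgroup.le_normalizer
  have hordv : orderOf (π ⟨u', hu'N⟩) = ℓ ^ a := by
    apply hO8 _ _ π hu'N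
    rw [hkm, hOm]
    exact hnot
  have hvx : π ⟨u', hu'N⟩ = x ^ m := by
    rw [← hcx, ← map_pow]
    congr 1
    exact Subtype.ext hm
  have hLv : Lp ℓ x (π ⟨u', hu'N⟩) := by
    obtain ⟨⟨r, hr⟩, hcom, hreg⟩ := hLp
    refine ⟨⟨r, ?_⟩, ?_, ?_⟩
    · rw [← map_pow]
      have h5 : (⟨u', hu'N⟩ : Subgroup.normalizer (Q : Set X)) ^ ℓ ^ r = 1 := Subtype.ext hr
      rw [h5, map_one]
    · rw [hvx]
      exact (Commute.refl x).pow_left m
    · have h5 : (π ⟨u', hu'N⟩)⁻¹ * x = π ((⟨u', hu'N⟩ : Subgroup.normalizer (Q : Set X))⁻¹ * c) := by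
        rw [map_mul, map_inv, hcx]
      rw [h5]
      unfold Reg at hreg ⊢
      refine Nat.Coprime.coprime_dvd_left (orderOf_map_dvd π _) ?_
      have h6 : orderOf ((⟨u', hu'N⟩ : Subgroup.normalizer (Q : Set X))⁻¹ * c) =
          orderOf (u'⁻¹ * (c : X)) := by
        rw [← Subgroup.orderOf_coe]
        rfl
      rwa [h6]
  have hvV := hxV _ hLv
  obtain ⟨P, g, hQP, hPN, hPV, hV'P⟩ := qtp ℓ M hM X fX W hblk htp Q hQ _ π hs hker f₁ hf₁ hff₁
    V' hV'.pg hV'.gd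
  have hcy' : Cy ℓ a p k V' := cyq ℓ X _ a p k W P (Subgroup.normalizer (Q : Set X)) g π V' hcy
    hPV hPN hV'P ⟨π ⟨u', hu'N⟩, hvV, by
      intro w hw
      rw [hvx]
      exact Subgroup.mem_centralizer_iff.1 (pow_mem hxC m) w hw, hordv⟩
  -- the order
  have hcard : Nat.card (Subgroup.normalizer (Q : Set X) ⧸
      Q.subgroupOf (Subgroup.normalizer (Q : Set X))) < n := by
    have hQ1 : 1 < Nat.card Q := by
      rw [Subgroup.one_lt_card_iff_ne_bot]
      exact hQb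
    have h1 :=
      (Q.subgroupOf (Subgroup.normalizer (Q : Set X))).card_eq_card_quotient_mul_card_subgroup
    have h2 : Nat.card (Q.subgroupOf (Subgroup.normalizer (Q : Set X))) = Nat.card Q :=
      Nat.card_congr (Subgroup.subgroupOfEquivOfLe Subgroup.le_normalizer).toEquiv
    have h3 : Nat.card (Subgroup.normalizer (Q : Set X)) ≤ n :=
      (Subgroup.card_le_card_group _).trans hn
    have h4 : 0 < Nat.card (Subgroup.normalizer (Q : Set X) ⧸
        Q.subgroupOf (Subgroup.normalizer (Q : Set X))) := Nat.card_pos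
    rw [h2] at h1
    nlinarith
  exact hIh _ hcard f₁ hf₁ V' hV' hcy'

/-- TX5 -/
theorem tx5 (omf : OmfStmt) (ksp : KspStmt) (zpt : ZptStmt) (qtp : QtpStmt) (cyq : CyqStmt) :
    Tx5Stmt := by
  intro ℓ _ M _ hM G _ _ a p k e V u y hU hcy f hf hIh U hUdef Q hQ hQb hno
  classical
  have hF : GoodF ℓ (FF M) := H50.fld ℓ Fact.out M hM
  have huy : u * y = y * u := Subgroup.mem_centralizer_iff.1 hU.yc u hU.mem
  obtain ⟨-, hK2⟩ := ksp ℓ (FF M) G a u y hU.pos hU.ord huy hU.reg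
  have hfB := hf.blk
  have hfnle := hf.nle
  have hftp := hf.tp
  have hfinv := hf.inv
  clear hf
  rw [← hUdef] at hK2 hfB hfnle hftp hfinv
  have hVX : V ≤ Subgroup.normalizer (U : Set G) := Subgroup.le_normalizer.trans hfnle
  -- the group `X`
  obtain ⟨K₀, hK₀⟩ : ∃ K₀ : Subgroup.normalizer (U : Set G) → FF M,
    K₀ = fun t : Subgroup.normalizer (U : Set G) =>
      clsum (FF M) (Subgroup.normalizer (U : Set G)) (u * y) t := ⟨_, rfl⟩
  obtain ⟨fX, hfX⟩ : ∃ fX : Subgroup.normalizer (U : Set G) → FF M,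
    fX = fun t : Subgroup.normalizer (U : Set G) => f t := ⟨_, rfl⟩
  have hblk : IsBlk fX := by rw [hfX]; exact hfB.blk
  rw [← hfX] at hftp hfinv ⊢
  rw [← hK₀] at hfinv
  have hKcl : IsCl K₀ := by
    intro x t
    rw [hK₀]
    have h1 := T5.H31.cj_clsum (F := FF M) (w := u * y) (inv_mem t.2)
    have h2 := congrFun h1 (x : G)
    change clsum (FF M) _ (u * y) ((t : G)⁻¹⁻¹ * x * (t : G)⁻¹) = _ at h2
    rw [inv_inv] at h2
    exact h2
  -- Cy for `V_X`
  have hcyX : Cy ℓ a p k (V.subgroupOf (Subgroup.normalizer (U : Set G))) := by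
    refine cyq ℓ G _ a p k V V (Subgroup.normalizer (U : Set G)) 1 (MonoidHom.id _) _ hcy ?_ hVX
      (Subgroup.map_id _).symm ?_
    · intro x hx
      rw [T3.H62.mem_conjS, inv_one, one_mul, mul_one]
      exact hx
    · refine ⟨⟨u, hVX hU.mem⟩, hU.mem, ?_, ?_⟩
      · intro w hw
        exact Subtype.ext (hU.cen w hw)
      · rw [← hU.ord, ← Subgroup.orderOf_coe]
  refine tx_aux omf zpt qtp cyq hM hU.pos hblk hftp hcyX hKcl hfinv
    (U := U.subgroupOf (Subgroup.normalizer (U : Set G))) ?_ (Subgroup.card_le_card_group _) hIh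
    hQ hQb ?_
  · intro c hc
    rw [hK₀] at hc
    have hc' : cj 1 (clsum (FF M) (Subgroup.normalizer (U : Set G)) (u * y)) (c : G) ≠ 0 := by
      rw [cj_one]
      exact hc
    obtain ⟨u', hL, ho, hOm, ⟨m, hm⟩, -⟩ := hK2 1 c hc'
    have hcoe : ((c ^ m : Subgroup.normalizer (U : Set G)) : G) = u' := by
      rw [hm]
      rfl
    refine ⟨c ^ m, ⟨?_, (Commute.refl c).pow_left m, ?_⟩, ?_, ?_, m, rfl⟩
    · obtain ⟨r, hr⟩ := hL.el
      refine ⟨r, Subtype.ext ?_⟩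
      rw [← hcoe] at hr
      exact hr
    · have h1 := hL.reg
      unfold Reg at h1 ⊢
      rw [← hcoe] at h1
      rw [← Subgroup.orderOf_coe]
      exact h1
    · rw [← Subgroup.orderOf_coe, hcoe, ho]
    · have h1 : conjS (1 : G) U = U := by
        ext t
        rw [T3.H62.mem_conjS, inv_one, one_mul, mul_one]
      rw [h1] at hOm
      have hmemU : ∀ t : G, t ∈ Om ℓ a u' ↔ t ∈ U := fun t => by rw [hOm]
      ext t
      rw [Subgroup.mem_subgroupOf]
      constructor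
      · intro ht
        apply (hmemU t).1
        obtain ⟨z, hz⟩ := Subgroup.mem_zpowers_iff.1 ht
        refine Subgroup.mem_zpowers_iff.2 ⟨z, ?_⟩
        rw [← hz, ← hcoe]
        rfl
      · intro ht
        obtain ⟨z, hz⟩ := Subgroup.mem_zpowers_iff.1 ((hmemU t).2 ht)
        refine Subgroup.mem_zpowers_iff.2 ⟨z, Subtype.ext ?_⟩
        rw [← hz, ← hcoe]
        rfl
  · rintro ⟨h1, h2⟩
    refine hno ⟨h1, ?_⟩
    intro x hx
    rw [Subgroup.mem_subgroupOf, Subgroup.mem_centralizer_iff]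
    intro v hv
    have h3 := Subgroup.mem_centralizer_iff.1 (h2 hx)
      ⟨v, Subgroup.le_normalizer hv⟩ (Subgroup.mem_subgroupOf.2 hv)
    exact congrArg Subtype.val h3

end Pool.Agent.PP.T5.H92
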